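import Pool.Agent.AT5.Stmts2
import Pool.Agent.Helper27_K9.PRT

/-!
# Squad AT5, row NCL: a normal subgroup of index `ℓ`

No orbits: on the functions of `TT(C)` fixed by `E` the conjugation `σ` by an element of `A` outside
`C` satisfies `(σ - 1) ^ ℓ = σ ^ ℓ - 1 = 0`, so the dimension is at most `ℓ` times the dimension of
the functions fixed by `σ`, and these extend to functions in `TT(A)` fixed by `E`.
-/

open scoped BigOperators

set_option linter.unusedSectionVars false

noncomputable section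

namespace Pool.Agent.PP.T5.H82

open Pool.Agent.Helper51_AWC Pool.Agent.Helper79_WRA Pool.Agent.PP Pool.Agent.PP.KF
open Pool.Agent.PP.K9 Pool.Agent.PP.K9.H97 Pool.Agent.PP.H75 Pool.Agent.PP.T3 Pool.Agent.PP.T2

section linalg

variable {F V V' : Type} [Field F] [AddCommGroup V] [Module F V] [AddCommGroup V'] [Module F V']
  [Module.Finite F V]

theorem finrank_map_add (f : V →ₗ[F] V') (P : Submodule F V) :
    Module.finrank F (P.map f) + Module.finrank F (P ⊓ LinearMap.ker f : Submodule F V) =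
      Module.finrank F P := by
  have h := LinearMap.finrank_range_add_finrank_ker (f.domRestrict P)
  rw [LinearMap.range_domRestrict] at h
  have e : P ⊓ LinearMap.ker f = Submodule.map P.subtype (Submodule.comap P.subtype
      (LinearMap.ker f)) := by
    rw [Submodule.map_comap_subtype]
  rw [← h, e, Submodule.finrank_map_subtype_eq, LinearMap.ker_domRestrict]

/-- the dimension of the kernel of a power on an invariant subspace -/
theorem finrank_ker_pow (n : V →ₗ[F] V) (W : Submodule F V) (hW : ∀ v ∈ W, n v ∈ W) (k : ℕ) :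
    Module.finrank F (W ⊓ LinearMap.ker (n ^ k) : Submodule F V) ≤
      k * Module.finrank F (W ⊓ LinearMap.ker n : Submodule F V) := by
  have hWk : ∀ k : ℕ, ∀ v ∈ W, (n ^ k) v ∈ W := by
    intro k
    induction k with
    | zero => intro v hv; exact hv
    | succ k ih =>
      intro v hv
      rw [pow_succ]
      exact ih _ (hW v hv)
  induction k with
  | zero =>
    have e : (W ⊓ LinearMap.ker (n ^ 0) : Submodule F V) = ⊥ := by
      rw [pow_zero]
      apply eq_bot_iff.2
      rintro v ⟨_, hv⟩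
      exact hv
    rw [e, finrank_bot, zero_mul]
  | succ k ih =>
    rw [← finrank_map_add (n ^ k), add_mul, one_mul, add_comm]
    apply add_le_add
    · refine le_trans (Submodule.finrank_mono ?_) ih
      rintro v ⟨⟨hv, _⟩, hv'⟩
      exact ⟨hv, hv'⟩
    · apply Submodule.finrank_mono
      rintro _ ⟨v, ⟨hv, hv'⟩, rfl⟩
      refine ⟨hWk k v hv, ?_⟩
      have : (n ^ (k + 1)) v = 0 := hv'
      rw [pow_succ'] at this
      exact this

/-- an automorphism of order `ℓ` in characteristic `ℓ` -/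
theorem finrank_le_fixed (ℓ : ℕ) [Fact ℓ.Prime] [CharP F ℓ] (σ : V →ₗ[F] V) (W : Submodule F V)
    (hW : ∀ v ∈ W, σ v ∈ W) (hℓ : ∀ v ∈ W, (σ ^ ℓ) v = v) :
    Module.finrank F W ≤ ℓ * Module.finrank F (W ⊓ LinearMap.ker (σ - 1) : Submodule F V) := by
  have h1 : (σ - 1) ^ ℓ = σ ^ ℓ - 1 := by
    have h2 : (Polynomial.X - 1 : Polynomial F) ^ ℓ = Polynomial.X ^ ℓ - 1 := by
      rw [sub_pow_char, one_pow]
    have h3 := congrArg (Polynomial.aeval σ) h2
    simp only [map_pow, map_sub, Polynomial.aeval_X, map_one] at h3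
    exact h3
  have h := finrank_ker_pow (σ - 1) W (fun v hv => W.sub_mem (hW v hv) hv) ℓ
  have e : W ⊓ LinearMap.ker ((σ - 1) ^ ℓ) = W := by
    apply inf_eq_left.2
    intro v hv
    rw [LinearMap.mem_ker, h1, LinearMap.sub_apply, hℓ v hv]
    exact sub_self v
  rwa [e] at h

end linalg

section main

variable {F K H : Type} [Field F] [Group K] [Finite K] [Group H] [Finite H]

/-- `TT` is invariant under class functions -/
theorem actF_TT (hbrt : BrtStmt) (heig : EigStmt) {ℓ : ℕ} (hF : GoodF ℓ F) {a : H → F}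
    (ha : IsCl a) {f : H → F} (hf : f ∈ TT F H ℓ) : actF a f ∈ TT F H ℓ := by
  have h : (TT F H ℓ).map (actL a) ≤ TT F H ℓ := by
    rw [← hbrt ℓ F hF H, Submodule.map_span, Submodule.span_le]
    rintro _ ⟨_, ⟨n, ρ, hρ, rfl⟩, rfl⟩
    obtain ⟨w, _, hw, _⟩ := heig F H n ρ hρ a ha
    change actF a (tr ρ) ∈ _
    rw [hw]
    exact Submodule.smul_mem _ _ (Submodule.subset_span ⟨n, ρ, hρ, rfl⟩)
  exact h ⟨f, hf, rfl⟩

variable {ℓ : ℕ} (ι : K →* H) (hι : Function.Injective ι)

include hι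

/-- a sum supported on the image of `ι` -/
theorem sum_im (f : H → F) (hf : ∀ h, h ∉ ι.range → f h = 0) :
    ∑ᶠ h, f h = ∑ᶠ k, f (ι k) := by
  have := Fintype.ofFinite H
  have := Fintype.ofFinite K
  rw [finsum_eq_sum_of_fintype, finsum_eq_sum_of_fintype]
  symm
  apply Fintype.sum_of_injective ι hι
  · intro h hh
    exact hf h hh
  · intro k
    rfl

theorem actF_im {e : H → F} (hs : ∀ h, h ∉ ι.range → e h = 0) (f : H → F) (k : K) :
    actF e f (ι k) = actF (fun t => e (ι t)) (fun t => f (ι t)) k := by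
  unfold actF
  rw [sum_im ι hι _ (fun h hh => by rw [hs h hh, zero_mul])]
  simp only [map_mul]

theorem mulF_im {e : H → F} (hs : ∀ h, h ∉ ι.range → e h = 0) (f : H → F) (k : K) :
    mulF e f (ι k) = mulF (fun t => e (ι t)) (fun t => f (ι t)) k := by
  unfold mulF
  rw [sum_im ι hι _ (fun h hh => by rw [hs h hh, zero_mul])]
  simp only [map_mul, map_inv]

theorem idem_im {e : H → F} (he : IsIdem e) (hs : ∀ h, h ∉ ι.range → e h = 0) :
    IsIdem (fun t : K => e (ι t)) := by
  refine ⟨fun x y => ?_, ?_⟩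
  · change e (ι (y * x * y⁻¹)) = e (ι x)
    rw [map_mul, map_mul, map_inv]
    exact he.1 _ _
  · funext k
    rw [← mulF_im ι hι hs, he.2]

/-- the main inequality -/
theorem main (hp : Fact ℓ.Prime) (hF : GoodF ℓ F) (hbrt : BrtStmt) (heig : EigStmt) (g : H)
    (φ : K ≃* K) (hφ : ∀ k, ι (φ k) = g⁻¹ * ι k * g)
    (hgen : ∀ h : H, ∃ (i : ℕ) (k : K), h = g ^ i * ι k) (k₀ : K) (hk₀ : ι k₀ = g ^ ℓ)
    (hreg : ∀ h : H, Reg ℓ h → h ∈ ι.range) {e : H → F} (he : IsIdem e)
    (hs : ∀ h, h ∉ ι.range → e h = 0) :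
    rk (fun t : K => e (ι t)) (TT F K ℓ) ≤ ℓ * rk e (TT F H ℓ) := by
  have := hF.char
  set ε : K → F := fun t => e (ι t) with hε
  have hid : IsIdem ε := idem_im ι hι he hs
  set W : Submodule F (K → F) := (TT F K ℓ).map (actL ε) with hW
  have hW1 : ∀ f ∈ W, f ∈ TT F K ℓ := by
    rintro _ ⟨f, hf, rfl⟩
    exact actF_TT hbrt heig hF hid.1 hf
  have hW2 : ∀ f ∈ W, actF ε f = f := by
    rintro _ ⟨f, hf, rfl⟩
    change actF ε (actF ε f) = actF ε f
    rw [← actF_mulF, hid.2]
  -- powers of `φ`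
  have hit : ∀ (n : ℕ) (k : K), ι (φ^[n] k) = (g ^ n)⁻¹ * ι k * g ^ n := by
    intro n k
    induction n with
    | zero => simp
    | succ n ih =>
      rw [Function.iterate_succ_apply', hφ, ih, pow_succ]
      group
  set σ : (K → F) →ₗ[F] (K → F) := LinearMap.funLeft F F φ with hσ
  have hσa : ∀ f k, σ f k = f (φ k) := fun f k => rfl
  have hσn : ∀ (n : ℕ) (f : K → F) (k : K), (σ ^ n) f k = f (φ^[n] k) := by
    intro n
    induction n with
    | zero => intro f k; rfl
    | succ n ih =>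
      intro f k
      rw [pow_succ, Module.End.mul_apply, ih, hσa, ← Function.iterate_succ_apply' φ]
  have hσW : ∀ f ∈ W, σ f ∈ W := by
    intro f hf
    have hf1 := hW1 f hf
    have hT : σ f ∈ TT F K ℓ := by
      refine ⟨fun x y => ?_, fun x y hxy hy => ?_⟩
      · rw [hσa, hσa, map_mul, map_mul, map_inv]
        exact hf1.1 _ _
      · rw [hσa, hσa, map_mul]
        apply hf1.2 _ _ (hxy.map φ)
        obtain ⟨n, hn⟩ := hy
        exact ⟨n, by rw [← map_pow, hn, map_one]⟩
    refine ⟨σ f, hT, ?_⟩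
    change actF ε (σ f) = σ f
    funext x
    have h1 : actF ε f (φ x) = f (φ x) := by rw [hW2 f hf]
    rw [hσa, ← h1]
    unfold actF
    rw [← finsum_comp_equiv φ.toEquiv (f := fun t => ε t * f (t * φ x))]
    apply finsum_congr
    intro t
    change ε t * f (φ (t * x)) = ε (φ t) * f (φ t * φ x)
    have h2 : ε (φ t) = ε t := by
      change e (ι (φ t)) = e (ι t)
      rw [hφ]
      have := he.1 (ι t) g⁻¹
      rwa [inv_inv] at this
    rw [map_mul, h2]
  have hσℓ : ∀ f ∈ W, (σ ^ ℓ) f = f := by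
    intro f hf
    funext k
    rw [hσn]
    have h1 : φ^[ℓ] k = k₀⁻¹ * k * k₀ := by
      apply hι
      rw [hit, ← hk₀, map_mul, map_mul, map_inv]
    rw [h1]
    have := (hW1 f hf).1 k k₀⁻¹
    rwa [inv_inv] at this
  have hdim := finrank_le_fixed ℓ σ W hσW hσℓ
  refine le_trans hdim (Nat.mul_le_mul_left ℓ ?_)
  -- the fixed functions are invariant
  have hinv : ∀ f ∈ W ⊓ LinearMap.ker (σ - 1), ∀ (h : H) (k k' : K), ι k' = h * ι k * h⁻¹ →
      f k' = f k := by
    rintro f ⟨hf, hf'⟩ h k k' hk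
    have hf2 : σ f = f := sub_eq_zero.1 hf'
    have hf3 : ∀ n : ℕ, (σ ^ n) f = f := by
      intro n
      induction n with
      | zero => rfl
      | succ n ih => rw [pow_succ, Module.End.mul_apply, hf2, ih]
    obtain ⟨i, c, rfl⟩ := hgen h
    have h1 : φ^[i] k' = c * k * c⁻¹ := by
      apply hι
      rw [hit, hk, map_mul, map_mul, map_inv]
      group
    have h2 := congrFun (hf3 i) k'
    rw [hσn, h1] at h2
    rw [← h2]
    exact (hW1 f hf).1 k c
  -- the power map
  obtain ⟨N, hN1, hN2⟩ := Pool.Agent.PP.K9.H27.prt ℓ H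
  have hNr : ∀ h : H, ∃ k : K, ι k = h ^ N := fun h => hreg _ (hN1 h).1
  choose p hp' using hNr
  set L : (K → F) →ₗ[F] (H → F) := LinearMap.funLeft F F p with hL
  have hLa : ∀ f h, L f h = f (p h) := fun f h => rfl
  have hTN : ∀ f ∈ TT F H ℓ, ∀ h, f h = f (ι (p h)) := by
    intro f hf h
    rw [hp']
    have hc : Commute (h ^ N) ((h ^ N)⁻¹ * h) := by
      have : Commute (h ^ N) h := (Commute.refl h).pow_left N
      exact ((Commute.refl (h ^ N)).inv_right).mul_right this
    have := hf.2 (h ^ N) ((h ^ N)⁻¹ * h) hc (hN1 h).2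
    rwa [mul_inv_cancel_left] at this
  have hpι : ∀ k, ι (p (ι k)) = ι (k ^ N) := fun k => by rw [hp', map_pow]
  have hLι : ∀ f ∈ TT F K ℓ, ∀ k, L f (ι k) = f k := by
    intro f hf k
    rw [hLa, hι (hpι k)]
    have hc : Commute (k ^ N) ((k ^ N)⁻¹ * k) := by
      have : Commute (k ^ N) k := (Commute.refl k).pow_left N
      exact ((Commute.refl (k ^ N)).inv_right).mul_right this
    obtain ⟨n, hn⟩ := (hN1 (ι k)).2
    have := hf.2 (k ^ N) ((k ^ N)⁻¹ * k) hc ⟨n, hι (by
      rw [map_pow, map_mul, map_inv, map_pow, map_one, hn])⟩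
    rw [mul_inv_cancel_left] at this
    exact this.symm
  have hLT : ∀ f ∈ W ⊓ LinearMap.ker (σ - 1), L f ∈ TT F H ℓ := by
    intro f hf
    refine ⟨fun x y => ?_, fun x y hxy hy => ?_⟩
    · rw [hLa, hLa]
      apply hinv f hf y
      rw [hp', hp']
      exact (MulAut.conj y).toMonoidHom.map_pow x N |>.symm
    · rw [hLa, hLa]
      congr 1
      apply hι
      rw [hp', hp']
      have hc1 : Commute (x ^ N) x := (Commute.refl x).pow_left N
      have hc2 : Commute (x ^ N) y := hxy.pow_left N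
      have hc3 : Commute ((x ^ N)⁻¹ * x) y := (hc2.inv_left).mul_left hxy
      have e : x * y = x ^ N * ((x ^ N)⁻¹ * x * y) := by group
      rw [e]
      apply hN2
      · exact (((Commute.refl (x ^ N)).inv_right).mul_right hc1).mul_right hc2
      · exact (hN1 x).1
      · obtain ⟨n, hn⟩ := (hN1 x).2
        obtain ⟨m, hm⟩ := hy
        refine ⟨n + m, ?_⟩
        rw [hc3.mul_pow, pow_add, pow_mul, hn, one_pow, one_mul, mul_comm (ℓ ^ n), pow_mul, hm,
          one_pow]
  have hLe : ∀ f ∈ W ⊓ LinearMap.ker (σ - 1), actF e (L f) = L f := by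
    intro f hf
    funext h
    rw [hTN _ (actF_TT hbrt heig hF he.1 (hLT f hf)), hTN _ (hLT f hf) h, actF_im ι hι hs,
      hLι f (hW1 f hf.1)]
    have e1 : (fun t => L f (ι t)) = f := funext fun t => hLι f (hW1 f hf.1) t
    rw [e1, hW2 f hf.1]
  have hmap : (W ⊓ LinearMap.ker (σ - 1)).map L ≤ (TT F H ℓ).map (actL e) := by
    rintro _ ⟨f, hf, rfl⟩
    exact ⟨L f, hLT f hf, hLe f hf⟩
  have h1 := finrank_map_add L (W ⊓ LinearMap.ker (σ - 1))
  have e : (W ⊓ LinearMap.ker (σ - 1) ⊓ LinearMap.ker L : Submodule F (K → F)) = ⊥ := by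
    apply eq_bot_iff.2
    rintro f ⟨hf, hf'⟩
    have h2 : L f = 0 := hf'
    change f = 0
    funext k
    rw [← hLι f (hW1 f hf.1) k, h2]
    rfl
  rw [e, finrank_bot, add_zero] at h1
  rw [← h1]
  exact Submodule.finrank_mono hmap

end main

theorem ncl (hbrt : BrtStmt) (hrnk : RnkStmt) (heig : EigStmt) : NclStmt := by
  intro ℓ hp F _ hF G _ _ C A hCA hAN hidx E hE hs
  have hℓ := hp.out
  have hid : IsIdem (fun t : C => E t) := by
    refine ⟨fun x y => ?_, ?_⟩
    · have := hE.idem.1 ⟨x, hCA x.2⟩ ⟨y, hCA y.2⟩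
      exact this
    · rw [← mulF_res C E hs, hE.mul]
  have hidA : IsIdem (fun t : A => E t) := hE.idem
  -- the quotient
  set N : Subgroup A := C.subgroupOf A with hN
  have hNn : N.Normal := Subgroup.normal_subgroupOf_of_le_normalizer hAN
  have hNi : Nat.card (A ⧸ N) = ℓ := by
    rw [← Subgroup.index_eq_card]
    exact hidx
  have hNT : N ≠ ⊤ := by
    intro h
    have h1 : N.index = 1 := by rw [h, Subgroup.index_top]
    have h2 : N.index = ℓ := hidx
    exact hℓ.ne_one (h2.symm.trans h1)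
  obtain ⟨g, hg⟩ : ∃ g : A, g ∉ N := by
    by_contra h
    push Not at h
    exact hNT (eq_top_iff.2 fun x _ => h x)
  have hgC : (g : G) ∉ C := fun h => hg (Subgroup.mem_subgroupOf.2 h)
  have hgN : (g : G) ∈ Subgroup.normalizer (C : Set G) := hAN g.2
  -- conjugation
  have hc1 : ∀ x : G, (g : G)⁻¹ * x * g ∈ C ↔ x ∈ C := conj_mem_iff hgN
  let φ : C ≃* C :=
    { toFun := fun x => ⟨(g : G)⁻¹ * x * g, (hc1 x).2 x.2⟩
      invFun := fun x => ⟨(g : G) * x * (g : G)⁻¹, by
        have := (hc1 ((g : G) * x * (g : G)⁻¹)).1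
        apply this
        have e : (g : G)⁻¹ * ((g : G) * x * (g : G)⁻¹) * g = x := by group
        rw [e]
        exact x.2⟩
      left_inv := fun x => Subtype.ext (by
        change (g : G) * ((g : G)⁻¹ * x * g) * (g : G)⁻¹ = x
        group)
      right_inv := fun x => Subtype.ext (by
        change (g : G)⁻¹ * ((g : G) * x * (g : G)⁻¹) * g = x
        group)
      map_mul' := fun x y => Subtype.ext (by
        change (g : G)⁻¹ * (x * y) * g = (g : G)⁻¹ * x * g * ((g : G)⁻¹ * y * g)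
        group) }
  have hgen : ∀ h : A, ∃ (i : ℕ) (k : C), h = g ^ i * Subgroup.inclusion hCA k := by
    intro h
    have := Fact.mk hℓ
    have hgq : (QuotientGroup.mk g : A ⧸ N) ≠ 1 := by
      intro h1
      exact hg ((QuotientGroup.eq_one_iff g).1 h1)
    have h1 : (QuotientGroup.mk h : A ⧸ N) ∈ Submonoid.powers (QuotientGroup.mk g : A ⧸ N) :=
      mem_powers_of_prime_card hNi hgq
    obtain ⟨i, hi⟩ := h1
    have h2 : ((g ^ i : A) : A ⧸ N) = (h : A ⧸ N) := hi
    have h3 := Subgroup.mem_subgroupOf.1 (QuotientGroup.eq.1 h2)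
    refine ⟨i, ⟨_, h3⟩, ?_⟩
    apply Subtype.ext
    change (h : G) = ((g ^ i : A) : G) * (((g ^ i)⁻¹ * h : A) : G)
    rw [← Subgroup.coe_mul, mul_inv_cancel_left]
  have hpow : g ^ ℓ ∈ N := by
    rw [← QuotientGroup.eq_one_iff, QuotientGroup.mk_pow, ← hNi]
    exact pow_card_eq_one'
  have hreg : ∀ h : A, Reg ℓ h → h ∈ (Subgroup.inclusion hCA).range := by
    intro h hr
    have h1 : (QuotientGroup.mk h : A ⧸ N) = 1 := by
      rw [← orderOf_eq_one_iff]
      have h2 : orderOf (QuotientGroup.mk h : A ⧸ N) ∣ ℓ := by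
        rw [← hNi]
        exact orderOf_dvd_natCard _
      have h3 : orderOf (QuotientGroup.mk h : A ⧸ N) ∣ orderOf h :=
        orderOf_map_dvd (QuotientGroup.mk' N) h
      have h4 := Nat.dvd_gcd h3 h2
      rw [hr.gcd_eq_one] at h4
      exact Nat.dvd_one.1 h4
    have h2 := Subgroup.mem_subgroupOf.1 ((QuotientGroup.eq_one_iff h).1 h1)
    exact ⟨⟨h, h2⟩, Subtype.ext rfl⟩
  have hmain := main (F := F) (ℓ := ℓ) (Subgroup.inclusion hCA) (Subgroup.inclusion_injective hCA)
    hp hF hbrt heig g φ (fun k => Subtype.ext rfl) hgen ⟨((g ^ ℓ : A) : G),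
      Subgroup.mem_subgroupOf.1 hpow⟩ (Subtype.ext rfl) hreg hidA (by
      intro h hh
      apply hs
      intro h1
      exact hh ⟨⟨h, h1⟩, Subtype.ext rfl⟩)
  have h1 := hrnk ℓ F hF C (fun t : C => E t) hid
  have h2 := hrnk ℓ F hF A (fun t : A => E t) hidA
  unfold T3.ln
  rw [← h1, ← h2]
  exact hmain

end Pool.Agent.PP.T5.H82
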